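import Pool.Agent.N874.TF.Stm

/-!
# Project TF (helper874), part EMBF: an embedding in the completion `F_v` extends to a completion

Author: helper488. This is the file `Pool/Agent/N438/QM/Emb.lean` of helper438 with `ℚ_p` replaced
by the completion of a number field.
-/

set_option autoImplicit false
set_option linter.all false

open IsDedekindDomain WithZero Filter Topology MonoidWithZeroHom NumberField

namespace Pool.Agent.N488.TF.Embf

section

variable {F M : Type} [Field F] [NumberField F] [Field M] [NumberField M] [Algebra F M]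
  {v : HeightOneSpectrum (𝓞 F)} (σ : M →+* v.adicCompletion F)

theorem int_le (x : 𝓞 M) : Valued.v (σ (algebraMap (𝓞 M) M x)) ≤ 1 := by
  have h2 : IsIntegral ℤ (algebraMap (𝓞 M) M x) := x.2
  have h3 : IsIntegral (v.adicCompletionIntegers F) (σ (algebraMap (𝓞 M) M x)) := by
    obtain ⟨P, hP, h0⟩ := h2
    refine ⟨P.map (Int.castRingHom _), hP.map _, ?_⟩
    rw [Polynomial.eval₂_map, RingHom.ext_int ((algebraMap (v.adicCompletionIntegers F)
      (v.adicCompletion F)).comp (Int.castRingHom _)) (σ.comp (algebraMap ℤ M)),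
      ← Polynomial.hom_eval₂, h0, map_zero]
  obtain ⟨y, hy⟩ := IsIntegrallyClosed.isIntegral_iff.1 h3
  rw [← hy]
  exact y.2

/-- The prime ideal. -/
noncomputable def pI : Ideal (𝓞 M) where
  carrier := {x | Valued.v (σ (algebraMap (𝓞 M) M x)) < 1}
  add_mem' := by
    intro a b ha hb
    simp only [Set.mem_setOf_eq, map_add] at ha hb ⊢
    exact Valuation.map_add_lt _ ha hb
  zero_mem' := by simp
  smul_mem' := by
    intro c x hx
    simp only [Set.mem_setOf_eq, smul_eq_mul, map_mul] at hx ⊢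
    rw [mul_comm]
    exact mul_lt_one_of_lt_of_le hx (int_le σ c)

theorem mem_pI (x : 𝓞 M) : x ∈ pI σ ↔ Valued.v (σ (algebraMap (𝓞 M) M x)) < 1 := Iff.rfl

theorem pI_prime : (pI σ).IsPrime := by
  constructor
  · rw [Ideal.ne_top_iff_one, mem_pI, map_one, map_one, map_one]
    exact lt_irrefl _
  · intro x y h
    by_contra hcon
    push Not at hcon
    rw [mem_pI, not_lt] at hcon
    rw [mem_pI, not_lt] at hcon
    rw [mem_pI, map_mul, map_mul, map_mul, le_antisymm (int_le σ x) hcon.1,
      le_antisymm (int_le σ y) hcon.2, mul_one] at h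
    exact lt_irrefl _ h

theorem pI_ne (hσ : ∀ x : F, σ (algebraMap F M x) = algebraMap F (v.adicCompletion F) x) :
    pI σ ≠ ⊥ := by
  obtain ⟨a, ha, ha0⟩ := Submodule.exists_mem_ne_zero_of_ne_bot v.ne_bot
  intro h0
  have h1 : algebraMap (𝓞 F) (𝓞 M) a ∈ pI σ := by
    rw [mem_pI]
    have e : algebraMap (𝓞 M) M (algebraMap (𝓞 F) (𝓞 M) a) =
        algebraMap F M (algebraMap (𝓞 F) F a) := rfl
    rw [e, hσ]
    have h2 : Valued.v (algebraMap F (v.adicCompletion F) (algebraMap (𝓞 F) F a)) =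
        v.valuation F (algebraMap (𝓞 F) F a) := v.valuedAdicCompletion_eq_valuation' _
    rw [h2]
    exact (v.valuation_lt_one_iff_mem a).2 ha
  rw [h0, Ideal.mem_bot] at h1
  have h3 : algebraMap F M (algebraMap (𝓞 F) F a) = 0 := by
    have := congrArg (algebraMap (𝓞 M) M) h1
    rw [map_zero] at this
    exact this
  rw [map_eq_zero] at h3
  exact ha0 (by
    apply FaithfulSMul.algebraMap_injective (𝓞 F) F
    rw [h3, map_zero])

/-- The place. -/
noncomputable def pl (hσ : ∀ x : F, σ (algebraMap F M x) =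
    algebraMap F (v.adicCompletion F) x) : HeightOneSpectrum (𝓞 M) where
  asIdeal := pI σ
  isPrime := pI_prime σ
  ne_bot := pI_ne σ hσ

variable (hσ : ∀ x : F, σ (algebraMap F M x) = algebraMap F (v.adicCompletion F) x)

theorem le_of (x : M) (hx : (pl σ hσ).valuation M x ≤ 1) : Valued.v (σ x) ≤ 1 := by
  obtain ⟨n, d, hnd⟩ := (pl σ hσ).exists_primeCompl_mul_eq_of_integer x hx
  have hd : Valued.v (σ (algebraMap (𝓞 M) M d)) = 1 := by
    refine le_antisymm (int_le σ d) (not_lt.1 fun h => ?_)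
    exact d.2 ((mem_pI σ _).2 h)
  have h1 := congrArg (fun y => Valued.v (σ y)) hnd
  simp only [map_mul, hd, mul_one] at h1
  rw [h1]
  exact int_le σ n

theorem lt_of (x : M) (hx : (pl σ hσ).valuation M x < 1) : Valued.v (σ x) < 1 := by
  obtain ⟨n, d, hnd⟩ := (pl σ hσ).exists_primeCompl_mul_eq_of_integer x hx.le
  have hd : Valued.v (σ (algebraMap (𝓞 M) M d)) = 1 := by
    refine le_antisymm (int_le σ d) (not_lt.1 fun h => ?_)
    exact d.2 ((mem_pI σ _).2 h)
  have h1 := congrArg (fun y => Valued.v (σ y)) hnd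
  simp only [map_mul, hd, mul_one] at h1
  rw [h1, ← mem_pI]
  have h2 : (pl σ hσ).valuation M (algebraMap (𝓞 M) M n) < 1 := by
    rw [← hnd, map_mul]
    exact mul_lt_one_of_lt_of_le hx ((pl σ hσ).valuation_le_one _)
  exact ((pl σ hσ).valuation_lt_one_iff_mem n).1 h2

/-- The field with the topology of the valuation. -/
noncomputable def wf : WithVal ((pl σ hσ).valuation M) →+* v.adicCompletion F :=
  σ.comp (WithVal.equiv ((pl σ hσ).valuation M)).toRingHom

theorem wf_cont : Continuous (wf σ hσ) := by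
  have key : ContinuousAt (wf σ hσ).toAddMonoidHom 0 := by
    show Tendsto (wf σ hσ) (𝓝 0) (𝓝 (wf σ hσ 0))
    rw [map_zero]
    intro s hs
    obtain ⟨γ, hγ⟩ := Valued.mem_nhds_zero.1 hs
    obtain ⟨π, hπ⟩ := (pl σ hσ).valuation_exists_uniformizer M
    have hπ0 : π ≠ 0 := by
      rintro rfl
      rw [map_zero] at hπ
      exact exp_ne_zero hπ.symm
    have hπ1 : Valued.v (σ π) < 1 :=
      lt_of σ hσ π (by rw [hπ, ← exp_zero, exp_lt_exp]; norm_num)
    obtain ⟨n, hn⟩ : ∃ n : ℕ, Valued.v (σ π) ^ n < ValueGroup₀.embedding γ.1 :=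
      exists_pow_lt₀ hπ1 (Units.mk0 (ValueGroup₀.embedding γ.1) (by
        intro h
        have h' := (map_eq_zero (ValueGroup₀.embedding)).1 h
        exact γ.ne_zero h'))
    have hne : (Valued.v (R := WithVal ((pl σ hσ).valuation M))).restrict
        (WithVal.toVal ((pl σ hσ).valuation M) (π ^ n)) ≠ 0 := by
      rw [Valuation.ne_zero_iff]
      intro h
      exact pow_ne_zero n hπ0 ((WithVal.toVal_eq_zero _ _).1 h)
    rw [Filter.mem_map, Valued.mem_nhds_zero]
    refine ⟨Units.mk0 _ hne, fun x hx => hγ ?_⟩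
    have hx' : Valued.v x < Valued.v (WithVal.toVal ((pl σ hσ).valuation M) (π ^ n)) :=
      (Valuation.restrict_lt_iff _).1 hx
    have hx2 : (pl σ hσ).valuation M x.ofVal < (pl σ hσ).valuation M (π ^ n) := hx'
    have hpn : (pl σ hσ).valuation M (π ^ n) ≠ 0 :=
      (Valuation.ne_zero_iff _).2 (pow_ne_zero n hπ0)
    have h3 : (pl σ hσ).valuation M (x.ofVal / π ^ n) ≤ 1 := by
      rw [map_div₀]
      exact (div_le_one₀ (zero_lt_iff.2 hpn)).2 hx2.le
    have h4 := le_of σ hσ _ h3
    have e : x.ofVal = π ^ n * (x.ofVal / π ^ n) := by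
      field_simp
    show (Valued.v (R := v.adicCompletion F)).restrict (σ x.ofVal) < γ.1
    rw [Valuation.restrict_lt_iff_lt_embedding]
    rw [e, map_mul, map_mul, map_pow, map_pow]
    calc Valued.v (σ π) ^ n * Valued.v (σ (x.ofVal / π ^ n)) ≤ Valued.v (σ π) ^ n * 1 :=
          mul_le_mul_right h4 _
      _ < _ := by rwa [mul_one]
  exact continuous_of_continuousAt_zero (wf σ hσ).toAddMonoidHom key

end

/-- **EMBF.** -/
theorem embf : Pool.Agent.N874.TF.S_EMBF := by
  intro F M _ _ _ _ _ v σ hσ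
  have hc := wf_cont σ hσ
  refine ⟨pl σ hσ, (UniformSpace.Completion.extensionHom (wf σ hσ) hc).comp
    (HeightOneSpectrum.adicCompletion.equiv M (pl σ hσ)).toRingHom, fun x => ?_⟩
  exact UniformSpace.Completion.extensionHom_coe (wf σ hσ) hc (WithVal.toVal _ x)

end Pool.Agent.N488.TF.Embf
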